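import Pool.Agent.Mg.F737f38q.G5e9c32

/-- For every `m ≥ 1` and `q > 0`, the Renyi entropy of order `q` of the binomial law with
parameters `m, p` is a concave function of `p` on `[0, 1]` if and only if `q ≤ 2`. -/
theorem Pool.Agent.Results.MP_737f38_pr.BinomialThreshold.result :
    ∀ m : ℕ, 1 ≤ m → ∀ q : ℝ, 0 < q →
      (ConcaveOn ℝ (Set.Icc (0 : ℝ) 1) (fun p : ℝ => Pool.Agent.MP_737f38_pr.renyiEntropy q m
        (Pool.Agent.MP_737f38_pr.bernoulliSumMass fun _ : Fin m => p)) ↔ q ≤ 2) :=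
  Pool.Agent.MP_737f38_pr.Bin.binomial_iff
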