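import Pool.Agent.Mg.F737f38q.G316f6c

/-- The critical Renyi exponent exists, is unique, and equals `1` (not `2`). -/
theorem Pool.Agent.Results.MP_737f38_pr.CriticalExponentOne.result :
    ∀ c : ℝ, Pool.Agent.MP_737f38_pr.IsCriticalExponent c ↔ c = 1 :=
  Pool.Agent.MP_737f38_pr.critical_iff
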